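import Pool.Agent.Lib.MP_72b52d_lc.CR.Stmt

set_option autoImplicit false

/-!
# MP_2e4b78_lc : normal ideals on `ω₁` and trees in a transitive model of ZFC

`V`, `nat`, `IsTransModelZFC` are defined in the imported file.
-/

namespace Pool.Agent.NST

open Pool.Agent.CR (V nat IsTransModelZFC)

/-- The elements of the set `A`. -/
abbrev El (A : V) : Type 1 := {x : V // x ∈ A}

/-- The subset `O` of `A` as a set of `V`. -/
noncomputable def cs {A : V} (O : Set (El A)) : V := ZFSet.sep (fun z => ∃ h : z ∈ A, ⟨z, h⟩ ∈ O) A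

/-- The family `F` of subsets of `A` as a set of `V`. -/
noncomputable def fam {A : V} (F : Set (Set (El A))) : V :=
  ZFSet.sep (fun w => ∃ O ∈ F, cs O = w) A.powerset

/-- The relation `R` between the elements of `A` and of `B` as a set of `V`: the set of all pairs
`(x, y)` with `R x y`. -/
noncomputable def rel {A B : V} (R : El A → El B → Prop) : V :=
  ZFSet.sep (fun z => ∃ x y, R x y ∧ z = ZFSet.pair x.1 y.1) (ZFSet.prod A B)

/-- The function `f` as a set of `V`: the set of all pairs `(x, f x)`. -/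
noncomputable def fn {A B : V} (f : El A → El B) : V := rel (fun x y => f x = y)

/-- The sequence `F` of subsets of `A` as a set of `V`: the set of all pairs `(n, x)` with
`x ∈ F n`. -/
noncomputable def sq {A : V} (F : ℕ → Set (El A)) : V :=
  ZFSet.sep (fun z => ∃ (n : ℕ) (x : El A), x ∈ F n ∧ z = ZFSet.pair (nat n) x.1)
    (ZFSet.prod ZFSet.omega A)

/-- In the model `N`, the set `A` is countable: it is the range of a partial function on the
natural numbers which belongs to `N`. -/
def CtblIn (N : Set V) (A : V) : Prop :=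
  ∃ f ∈ N, (∀ y ∈ A, ∃ n : ℕ, ZFSet.pair (nat n) y ∈ f) ∧
    ∀ n : ℕ, ∀ y ∈ A, ∀ z ∈ A, ZFSet.pair (nat n) y ∈ f → ZFSet.pair (nat n) z ∈ f → y = z

/-- `W` is the first uncountable ordinal of the model `N`: it is a transitive set of transitive
sets, its elements are countable in `N` and it is not countable in `N`. -/
structure IsOmega1 (N : Set V) (W : V) : Prop where
  mem : W ∈ N
  trans : ∀ x ∈ W, ∀ y ∈ x, y ∈ W
  trans' : ∀ x ∈ W, ∀ y ∈ x, ∀ z ∈ y, z ∈ x
  ctbl : ∀ x ∈ W, CtblIn N x
  unc : ¬ CtblIn N W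

/-- In the model `N`, `I` is a normal ideal on `W = ω₁`: an ideal which belongs to `N`, is proper,
contains the singletons and is closed under diagonal unions of families belonging to `N`. -/
structure NormalIn (N : Set V) {W : V} (I : Set (Set (El W))) : Prop where
  mem : fam I ∈ N
  subset_mem : ∀ X ∈ I, ∀ Y ⊆ X, cs Y ∈ N → Y ∈ I
  union_mem : ∀ X ∈ I, ∀ Y ∈ I, X ∪ Y ∈ I
  proper : Set.univ ∉ I
  singleton_mem : ∀ α, {α} ∈ I
  diag_mem : ∀ F : El W → Set (El W), rel (fun α β => β ∈ F α) ∈ N → (∀ α, F α ∈ I) →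
    {β : El W | ∃ α : El W, α.1 ∈ β.1 ∧ β ∈ F α} ∈ I

/-- In the model `N`, `R` is (the strict order of) a tree of height `W = ω₁` on the set `A` with a
root, and `ht t` is the height of `t`: the function `ht` maps the set of the predecessors of `t`
isomorphically onto `ht t`; every element of `W` is the height of some node. -/
structure TreeIn (N : Set V) {W A : V} (R : El A → El A → Prop) (ht : El A → El W) : Prop where
  rel_mem : rel R ∈ N
  ht_mem : fn ht ∈ N
  trans : ∀ s t u, R s t → R t u → R s u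
  root : ∃ r, ∀ t, t ≠ r → R r t
  ht_lt : ∀ s t, R s t → (ht s).1 ∈ (ht t).1
  ht_inj : ∀ s s' t, R s t → R s' t → ht s = ht s' → s = s'
  ht_surj : ∀ (t : El A) (α : El W), α.1 ∈ (ht t).1 → ∃ s, R s t ∧ ht s = α
  ht_ord : ∀ s s' t, R s t → R s' t → (ht s).1 ∈ (ht s').1 → R s s'
  level : ∀ α : El W, ∃ t, ht t = α

/-- In the model `N`, the set `U` of nodes is special: it is the union of a sequence (of `N`) of
antichains. -/
def SpecialIn (N : Set V) {A : V} (R : El A → El A → Prop) (U : Set (El A)) : Prop :=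
  ∃ F : ℕ → Set (El A), sq F ∈ N ∧ (∀ n, ∀ s ∈ F n, ∀ t ∈ F n, ¬ R s t) ∧ U = ⋃ n, F n

/-- In the model `N`, the set `B` of nodes belongs to the ideal `NS^T` of the tree: there is a
regressive function `f` (of `N`) such that all sets `{t ∈ B | f t = s}` are special. -/
def NSIn (N : Set V) {A : V} (R : El A → El A → Prop) (B : Set (El A)) : Prop :=
  ∃ f : El A → El A, fn f ∈ N ∧ (∀ t ∈ B, (∃ s, R s t) → R (f t) t) ∧
    ∀ s, SpecialIn N R {t | t ∈ B ∧ f t = s}

/-- `Q1` in the model `N`: for every normal ideal `I` on `ω₁` there is a tree of height `ω₁` such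
that a set `X ⊆ ω₁` belongs to `I` if and only if the set of nodes with height in `X` belongs to
`NS^T`. -/
def Q1 (N : Set V) : Prop :=
  ∃ W : V, IsOmega1 N W ∧ ∀ I : Set (Set (El W)), NormalIn N I →
    ∃ A ∈ N, ∃ (R : El A → El A → Prop) (ht : El A → El W), TreeIn N R ht ∧
      ∀ X : Set (El W), cs X ∈ N → (X ∈ I ↔ NSIn N R {t | ht t ∈ X})

end Pool.Agent.NST
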