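import Pool.Agent.Lib.MP_2e4b78_lc.Ladder
import Pool.Agent.Lib.MP_2e4b78_lc.Mod.Q
import Pool.Agent.Lib.MP_d988c5_lc.FW

set_option autoImplicit false

/-!
# MP_2e4b78_lc : nodes, forcing conditions, objects and names
-/

open Cardinal Set Order
open scoped Ordinal

namespace Pool.Agent.NST

open Pool.Agent.MP2e4b78 (W1 W2 Lim IsNormalIdeal exists_inj)
open Pool.Agent.CR (Nm V nat natN Memf Eqf)

/-! ### nodes -/

/-- for every `ξ` an injection of the initial segment into `ω₁` -/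
noncomputable def e (ξ : W2) : W2 → W1 := (exists_inj ξ).choose

theorem e_inj (ξ : W2) : InjOn (e ξ) (Iio ξ) := (exists_inj ξ).choose_spec

/-- `(δ, M)` is closed -/
def Clo (δ : W1) (M : Set W2) : Prop := ∀ ξ ∈ M, ∀ η < ξ, (η ∈ M ↔ e ξ η < δ)

/-- the conditions at stage `i` -/
structure St (d : W1 → W1) (m : W1 → Set W2) (i : W1) : Prop where
  bot : i = ⊥ → d i = ⊥ ∧ m i = ∅
  cnt : (m i).Countable
  clo : Clo (d i) (m i)
  lt : ∀ j < i, d j < d i ∧ m j ⊆ m i ∧ ∃ ζ ∈ m i, ∀ η ∈ m j, η < ζ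
  lim : Lim i → (∀ β < d i, ∃ j < i, β < d j) ∧ ∀ η ∈ m i, ∃ j < i, η ∈ m j

theorem St.congr {d d' : W1 → W1} {m m' : W1 → Set W2} {i : W1} (h : St d m i)
    (hd : ∀ j ≤ i, d j = d' j) (hm : ∀ j ≤ i, m j = m' j) : St d' m' i := by
  have e1 := hd i le_rfl
  have e2 := hm i le_rfl
  refine ⟨fun hi => ?_, e2 ▸ h.cnt, e1 ▸ e2 ▸ h.clo, fun j hj => ?_, fun hl => ?_⟩
  · rw [← e1, ← e2]; exact h.bot hi
  · rw [← e1, ← e2, ← hd j hj.le, ← hm j hj.le]; exact h.lt j hj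
  · obtain ⟨h1, h2⟩ := h.lim hl
    rw [← e1, ← e2]
    refine ⟨fun β hβ => ?_, fun η hη => ?_⟩
    · obtain ⟨j, hj, h5⟩ := h1 β hβ
      exact ⟨j, hj, by rwa [← hd j hj.le]⟩
    · obtain ⟨j, hj, h5⟩ := h2 η hη
      exact ⟨j, hj, by rwa [← hm j hj.le]⟩

/-- the nodes: chains of closed pairs of length `len + 1` -/
@[ext]
structure Nd where
  len : W1
  d : W1 → W1
  m : W1 → Set W2
  d_out : ∀ i, len < i → d i = ⊥
  m_out : ∀ i, len < i → m i = ∅
  st : ∀ i ≤ len, St d m i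

namespace Nd

/-- construction by truncation -/
noncomputable def mk' (len : W1) (d : W1 → W1) (m : W1 → Set W2)
    (h : ∀ i ≤ len, St d m i) : Nd := by
  classical
  exact {
    len := len
    d := fun i => if i ≤ len then d i else ⊥
    m := fun i => if i ≤ len then m i else ∅
    d_out := fun i hi => if_neg (not_le.2 hi)
    m_out := fun i hi => if_neg (not_le.2 hi)
    st := fun i hi => (h i hi).congr (fun j hj => (if_pos (hj.trans hi)).symm)
      (fun j hj => (if_pos (hj.trans hi)).symm) }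

theorem mk'_len (len : W1) (d : W1 → W1) (m : W1 → Set W2) (h : ∀ i ≤ len, St d m i) :
    (mk' len d m h).len = len := rfl

theorem mk'_d {len : W1} {d : W1 → W1} {m : W1 → Set W2} (h : ∀ i ≤ len, St d m i) {i : W1}
    (hi : i ≤ len) : (mk' len d m h).d i = d i := if_pos hi

theorem mk'_m {len : W1} {d : W1 → W1} {m : W1 → Set W2} (h : ∀ i ≤ len, St d m i) {i : W1}
    (hi : i ≤ len) : (mk' len d m h).m i = m i := if_pos hi

instance : PartialOrder Nd where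
  le s t := s.len ≤ t.len ∧ ∀ i ≤ s.len, s.d i = t.d i ∧ s.m i = t.m i
  le_refl s := ⟨le_rfl, fun _ _ => ⟨rfl, rfl⟩⟩
  le_trans s t u h1 h2 := ⟨h1.1.trans h2.1, fun i hi =>
    ⟨(h1.2 i hi).1.trans (h2.2 i (hi.trans h1.1)).1,
      (h1.2 i hi).2.trans (h2.2 i (hi.trans h1.1)).2⟩⟩
  le_antisymm s t h1 h2 := by
    have hl : s.len = t.len := le_antisymm h1.1 h2.1
    apply Nd.ext hl
    · funext i
      rcases le_or_gt i s.len with h | h
      · exact (h1.2 i h).1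
      · rw [s.d_out i h, t.d_out i (hl ▸ h)]
    · funext i
      rcases le_or_gt i s.len with h | h
      · exact (h1.2 i h).2
      · rw [s.m_out i h, t.m_out i (hl ▸ h)]

theorem le_def {s t : Nd} :
    s ≤ t ↔ s.len ≤ t.len ∧ ∀ i ≤ s.len, s.d i = t.d i ∧ s.m i = t.m i := Iff.rfl

theorem eq_of_le_of_len {s t : Nd} (h : s ≤ t) (hl : s.len = t.len) : s = t := by
  refine le_antisymm h (le_def.2 ⟨hl.ge, fun i hi => ?_⟩)
  have := h.2 i (hl ▸ hi)
  exact ⟨this.1.symm, this.2.symm⟩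

theorem len_lt {s t : Nd} (h : s < t) : s.len < t.len :=
  lt_of_le_of_ne h.le.1 fun e => h.ne (eq_of_le_of_len h.le e)

theorem lt_of_len {s t : Nd} (h : s ≤ t) (hl : s.len < t.len) : s < t :=
  lt_of_le_of_ne h fun e => hl.ne (e ▸ rfl)

/-- restriction (to `min β t.len`) -/
noncomputable def res (t : Nd) (β : W1) : Nd :=
  mk' (min β t.len) t.d t.m (fun i hi => t.st i (hi.trans (min_le_right _ _)))

theorem res_len {t : Nd} {β : W1} (h : β ≤ t.len) : (t.res β).len = β := min_eq_left h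

theorem res_le (t : Nd) (β : W1) : t.res β ≤ t :=
  le_def.2 ⟨min_le_right _ _, fun _ hi => ⟨mk'_d _ hi, mk'_m _ hi⟩⟩

theorem eq_res {s t : Nd} (h : s ≤ t) : s = t.res s.len := by
  refine eq_of_le_of_len (le_def.2 ⟨(res_len h.1).ge, fun i hi => ?_⟩) (res_len h.1).symm
  have hi' : i ≤ min s.len t.len := by rw [min_eq_left h.1]; exact hi
  exact ⟨(h.2 i hi).1.trans (mk'_d _ hi').symm, (h.2 i hi).2.trans (mk'_m _ hi').symm⟩

theorem le_of_le_of_len {s s' t : Nd} (h : s ≤ t) (h' : s' ≤ t) (hl : s.len ≤ s'.len) :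
    s ≤ s' := by
  refine le_def.2 ⟨hl, fun i hi => ?_⟩
  exact ⟨(h.2 i hi).1.trans (h'.2 i (hi.trans hl)).1.symm,
    (h.2 i hi).2.trans (h'.2 i (hi.trans hl)).2.symm⟩

/-- the root -/
noncomputable def root : Nd :=
  mk' ⊥ (fun _ => ⊥) (fun _ => ∅) (fun i hi => by
    have hi' : i = ⊥ := le_bot_iff.1 hi
    refine ⟨fun _ => ⟨rfl, rfl⟩, countable_empty, fun ξ hξ => absurd hξ (notMem_empty _),
      fun j hj => absurd (hi' ▸ hj) not_lt_bot, fun hl => ?_⟩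
    obtain ⟨j, hj⟩ := hl.1
    exact absurd (hi' ▸ hj) not_lt_bot)

theorem root_len : root.len = ⊥ := rfl

theorem root_le (t : Nd) : root ≤ t := by
  refine le_def.2 ⟨bot_le, fun i hi => ?_⟩
  have hi' : i = ⊥ := le_bot_iff.1 hi
  subst hi'
  have h1 := (t.st ⊥ bot_le).bot rfl
  rw [h1.1, h1.2]
  exact ⟨mk'_d _ le_rfl, mk'_m _ le_rfl⟩

/-- the top ordinal -/
abbrev dt (t : Nd) : W1 := t.d t.len

/-- the top set -/
abbrev mt (t : Nd) : Set W2 := t.m t.len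

theorem d_le {t : Nd} {i j : W1} (h : i ≤ j) (hj : j ≤ t.len) : t.d i ≤ t.d j := by
  rcases h.eq_or_lt with rfl | h
  · exact le_rfl
  · exact ((t.st j hj).lt i h).1.le

theorem m_le {t : Nd} {i j : W1} (h : i ≤ j) (hj : j ≤ t.len) : t.m i ⊆ t.m j := by
  rcases h.eq_or_lt with rfl | h
  · exact Subset.rfl
  · exact ((t.st j hj).lt i h).2.1

theorem le_d {t : Nd} : ∀ i ≤ t.len, i ≤ t.d i := by
  intro i
  induction i using WellFoundedLT.induction with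
  | _ i ih =>
    intro hi
    by_contra hcon
    push Not at hcon
    have h1 := ih _ hcon (hcon.le.trans hi)
    have h2 := ((t.st i hi).lt _ hcon).1
    exact absurd h1 (not_le.2 h2)

theorem dt_mono {s t : Nd} (h : s ≤ t) : s.dt ≤ t.dt := by
  rw [dt, (h.2 _ le_rfl).1]
  exact d_le h.1 le_rfl

theorem mt_mono {s t : Nd} (h : s ≤ t) : s.mt ⊆ t.mt := by
  rw [mt, (h.2 _ le_rfl).2]
  exact m_le h.1 le_rfl

end Nd

/-! ### conditions -/

/-- the conditions: sets `x ξ` of countable ordinals for `ξ < top` and a set `E` of ordinals below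
`top` with ladders `c γ` which have pairwise disjoint tails -/
structure Cn where
  top : W2
  x : W2 → Set W1
  E : Set W2
  c : W2 → ℕ → W2
  E_lt : ∀ γ ∈ E, γ < top
  c1 : ∀ γ ∈ E, StrictMono (c γ)
  c2 : ∀ γ ∈ E, ∀ n, c γ n < γ
  c3 : ∀ γ ∈ E, ∀ y < γ, ∃ n, y < c γ n
  free : ∃ h : W2 → ℕ, ∀ γ ∈ E, ∀ γ' ∈ E, γ ≠ γ' → ∀ n ≥ h γ, ∀ m ≥ h γ', c γ n ≠ c γ' m

/-- end-extensions; `p.top` does not enter the set `E` -/
instance : Preorder Cn where
  le q p := p.top ≤ q.top ∧ (∀ ξ < p.top, q.x ξ = p.x ξ) ∧ (∀ γ ≤ p.top, (γ ∈ q.E ↔ γ ∈ p.E)) ∧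
    ∀ γ ∈ p.E, q.c γ = p.c γ
  le_refl p := ⟨le_rfl, fun _ _ => rfl, fun _ _ => Iff.rfl, fun _ _ => rfl⟩
  le_trans r q p h1 h2 := ⟨h2.1.trans h1.1,
    fun ξ hξ => (h1.2.1 ξ (hξ.trans_le h2.1)).trans (h2.2.1 ξ hξ),
    fun γ hγ => (h1.2.2.1 γ (hγ.trans h2.1)).trans (h2.2.2.1 γ hγ),
    fun γ hγ => (h1.2.2.2 γ ((h2.2.2.1 γ (p.E_lt γ hγ).le).2 hγ)).trans (h2.2.2.2 γ hγ)⟩

theorem Cn.le_def {p q : Cn} : q ≤ p ↔ p.top ≤ q.top ∧ (∀ ξ < p.top, q.x ξ = p.x ξ) ∧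
    (∀ γ ≤ p.top, (γ ∈ q.E ↔ γ ∈ p.E)) ∧ ∀ γ ∈ p.E, q.c γ = p.c γ := Iff.rfl

/-- a condition with a closed set `C` of ordinals `≤ top` which contains `top` and is disjoint
from `E` -/
structure Cp where
  p : Cn
  C : Set W2
  C_le : ∀ γ ∈ C, γ ≤ p.top
  top_mem : p.top ∈ C
  disj : ∀ γ ∈ C, γ ∉ p.E
  closed : ∀ γ ≤ p.top, Lim γ → (∀ y < γ, ∃ z ∈ C, y < z ∧ z < γ) → γ ∈ C

/-- `q` extends `p` and the closed set of `q` end-extends the closed set of `p` -/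
def Ee (q p : Cp) : Prop := q.p ≤ p.p ∧ ∀ γ ≤ p.p.top, (γ ∈ q.C ↔ γ ∈ p.C)

/-- `γ ∈ E` is the supremum of `M` and the ladder at `γ` meets `M` cofinally -/
def Tp (p : Cn) (M : Set W2) (γ : W2) : Prop :=
  γ ∈ p.E ∧ (∀ η ∈ M, η < γ) ∧ ∀ y < γ, ∃ n, y < p.c γ n ∧ p.c γ n ∈ M

/-! ### objects -/

/-- objects -/
inductive Ob : Type 1
  | nm (τ : Nm Cn) : Ob
  | cn (p : Cn) : Ob
  | nd (t : Nd) : Ob
  | w1 (i : W1) : Ob
  | od (α : W2) : Ob
  | s1 (S : Set W1) : Ob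
  | kk (k : ℕ) : Ob
  | no : Ob
  | sq (f : ℕ → Ob) : Ob
  | f1 (F : W1 → Ob) : Ob
  | hh (h : W2 → ℕ) : Ob
  | gf (g : Nd → W1) : Ob
  | ab (A : ℕ → Set Nd) : Ob
  | pr (a b : Ob) : Ob

/-- the name of an object -/
def Ob.un : Ob → Nm Cn
  | .nm τ => τ
  | _ => Nm.emp

/-- the presentation -/
def pp : FW.Pr Cn Ob where
  nm := .nm
  cn := .cn
  un := Ob.un
  un_nm _ := rfl
  cn_inj _ _ h := by simpa using h

/-- the ordinals of `ω₂` in a set of objects -/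
def N2 (N : Set Ob) : Set W2 := {η | Ob.od η ∈ N}

/-! ### names -/

/-- the name of a set: the values of the names `a i` for `i` in the set decided by `D` -/
def bag {ι : Type} (a : ι → Nm Cn) (D : ι → Set Cn) : Nm Cn :=
  .mk {y : Cn × ι // y.1 ∈ D y.2} (fun y => a y.1.2) (fun y => y.1.1)

/-- the name of the node `t`: its value is the set of the values of the names of the smaller
nodes of the world (in a well-order) -/
noncomputable def elN (t : Nd) : Nm Cn :=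
  (IsWellFounded.wf (r := (WellOrderingRel : Nd → Nd → Prop))).fix (C := fun _ => Nm Cn)
    (fun t ih => .mk {z : Nd × Cn // WellOrderingRel z.1 t} (fun z => ih z.1.1 z.2)
      (fun z => z.1.2)) t

/-- the name of the ordinal `i`: its value is the set of the values of the names of the smaller
ordinals of the world -/
noncomputable def oN (i : W1) : Nm Cn :=
  (wellFounded_lt (α := W1)).fix (C := fun _ => Nm Cn)
    (fun i ih => .mk {z : W1 × Cn // z.1 < i} (fun z => ih z.1.1 z.2) (fun z => z.1.2)) i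

/-- the name of `ω₁` -/
noncomputable def WN : Nm Cn := bag oN (fun _ => Set.univ)

/-- the name of the set `S` of countable ordinals -/
noncomputable def sN (S : Set W1) : Nm Cn := bag oN (fun i => {_p | i ∈ S})

/-- `p` forces that `S` belongs to the family named by `ν` -/
def In (ν : Nm Cn) (p : Cn) (S : Set W1) : Prop := Memf (sN S) ν p

/-- `p` forces that `S` does not belong to the family named by `ν` -/
def Ou (ν : Nm Cn) (p : Cn) (S : Set W1) : Prop := ∀ q ≤ p, ¬ In ν q S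

/-- `p` forces that `ν` names a normal ideal -/
def Norm (ν : Nm Cn) (p : Cn) : Prop := ∀ q ≤ p, IsNormalIdeal {S : Set W1 | In ν q S}

/-- `p` decides that `t` is a node of the tree for the ideal named by `ν`: at limit stages the
supremum of the set belongs to `E`, the ladder meets the set, and the ordinal does not belong to
those sets `x ξ`, `ξ ∈ m i`, which belong to the ideal -/
def Ok (ν : Nm Cn) (p : Cn) (t : Nd) : Prop :=
  ∀ i ≤ t.len, Lim i → (∃ γ, Tp p (t.m i) γ) ∧ ∀ ξ ∈ t.m i, t.d i ∈ p.x ξ → Ou ν p (p.x ξ)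

/-- the name of the set of the nodes of the tree -/
noncomputable def TN (ν : Nm Cn) : Nm Cn := bag elN (fun t => {p | Ok ν p t})

/-! ### the generic objects -/

/-- the set of the nodes of the tree -/
def TG (ν : Nm Cn) (M : Set Ob) (G : Set Cn) : Set Nd := {t | Ob.nd t ∈ M ∧ ∃ p ∈ G, Ok ν p t}

/-- `ω₁` of the model -/
noncomputable def Wv (M : Set Ob) (G : Set Cn) : V := pp.vl M G WN

/-- the underlying set of the tree of the model -/
noncomputable def Av (ν : Nm Cn) (M : Set Ob) (G : Set Cn) : V := pp.vl M G (TN ν)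

/-- the set of countable ordinals of the model given by `S` -/
noncomputable def im1 (M : Set Ob) (G : Set Cn) (S : Set W1) : Set (El (Wv M G)) :=
  {z | ∃ i ∈ S, Ob.w1 i ∈ M ∧ z.1 = pp.vl M G (oN i)}

/-- the set of nodes of the model given by `U` -/
noncomputable def im (ν : Nm Cn) (M : Set Ob) (G : Set Cn) (U : Set Nd) :
    Set (El (Av ν M G)) :=
  {z | ∃ t ∈ U, t ∈ TG ν M G ∧ z.1 = pp.vl M G (elN t)}

/-- the relation between nodes of the model given by `R` -/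
def rl (ν : Nm Cn) (M : Set Ob) (G : Set Cn) (R : Nd → Nd → Prop) (x y : El (Av ν M G)) : Prop :=
  ∃ s t, s ∈ TG ν M G ∧ t ∈ TG ν M G ∧ x.1 = pp.vl M G (elN s) ∧ y.1 = pp.vl M G (elN t) ∧ R s t

/-- the tree order of the model -/
def RR (ν : Nm Cn) (M : Set Ob) (G : Set Cn) : El (Av ν M G) → El (Av ν M G) → Prop :=
  rl ν M G (fun s t => s < t)

/-- the regressive choice at limits -/
def Qr (p : Cn) (ξ : W2) (h : W2 → ℕ) (t : Nd) (j : W1) : Prop :=
  t.len < t.d j ∨ (∃ η ∈ t.m j, ξ < η ∧ t.len ≤ e η ξ) ∨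
    ∃ γ, γ ≤ ξ ∧ Tp p t.mt γ ∧ ∃ n ≥ h γ, p.c γ n ∈ t.m j

/-- countable hulls -/
structure Hu (ν : Nm Cn) (q : Cn) (N : Set Ob) (δ : W1) (γ : W2) : Prop where
  cnt : N.Countable
  lim : Lim δ
  w1 : ∀ β, Ob.w1 β ∈ N ↔ β < δ
  top : Tp q (N2 N) γ
  good : ∀ ξ ∈ N2 N, δ ∈ q.x ξ → Ou ν q (q.x ξ)
  dt : ∀ t, Ob.nd t ∈ N → t.dt < δ ∧ t.mt ⊆ N2 N
  appx : ∀ t, Ob.nd t ∈ N → ∀ y ∈ N2 N,
    ∃ t', Ob.nd t' ∈ N ∧ t ≤ t' ∧ t'.len = Order.succ t.len ∧ y ∈ t'.mt
  appb : ∀ t, Ob.nd t ∈ N → ∀ β < δ,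
    ∃ t', Ob.nd t' ∈ N ∧ t ≤ t' ∧ t'.len = Order.succ t.len ∧ β < t'.dt
  res : ∀ t, Ob.nd t ∈ N → ∀ β ≤ t.len, Ob.nd (t.res β) ∈ N

end Pool.Agent.NST
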