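import Pool.Agent.Lib.MP_2e4b78_lc.Mod.P.IJ
import Pool.Agent.Lib.MP_2e4b78_lc.Mod.P.BG
import Pool.Agent.Lib.MP_2e4b78_lc.Mod.P.CL
import Pool.Agent.Lib.MP_2e4b78_lc.Mod.P.ON
import Pool.Agent.Lib.MP_2e4b78_lc.Mod.P.WV
import Pool.Agent.Lib.MP_2e4b78_lc.Mod.P.E1
import Pool.Agent.Lib.MP_2e4b78_lc.Mod.P.LB
import Pool.Agent.Lib.MP_2e4b78_lc.Mod.P.AL
import Pool.Agent.Lib.MP_2e4b78_lc.Mod.P.GN
import Pool.Agent.Lib.MP_2e4b78_lc.Mod.P.GE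
import Pool.Agent.Lib.MP_2e4b78_lc.Mod.P.SQ
import Pool.Agent.Lib.MP_2e4b78_lc.Mod.P.IO
import Pool.Agent.Lib.MP_2e4b78_lc.Mod.P.GW
import Pool.Agent.Lib.MP_2e4b78_lc.Mod.P.SU
import Pool.Agent.Lib.MP_2e4b78_lc.Mod.P.II
import Pool.Agent.Lib.MP_2e4b78_lc.Mod.P.OK
import Pool.Agent.Lib.MP_2e4b78_lc.Mod.P.NI
import Pool.Agent.Lib.MP_2e4b78_lc.Mod.P.EL
import Pool.Agent.Lib.MP_2e4b78_lc.Mod.P.AV
import Pool.Agent.Lib.MP_2e4b78_lc.Mod.P.HT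
import Pool.Agent.Lib.MP_2e4b78_lc.Mod.P.RL
import Pool.Agent.Lib.MP_2e4b78_lc.Mod.P.MD
import Pool.Agent.Lib.MP_2e4b78_lc.Mod.P.AP
import Pool.Agent.Lib.MP_2e4b78_lc.Mod.P.LD
import Pool.Agent.Lib.MP_2e4b78_lc.Mod.P.CH
import Pool.Agent.Lib.MP_2e4b78_lc.Mod.P.HL
import Pool.Agent.Lib.MP_2e4b78_lc.Mod.P.HU
import Pool.Agent.Lib.MP_2e4b78_lc.Mod.P.LI
import Pool.Agent.Lib.MP_2e4b78_lc.Mod.P.FU
import Pool.Agent.Lib.MP_2e4b78_lc.Mod.P.EX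
import Pool.Agent.Lib.MP_2e4b78_lc.Mod.P.LV
import Pool.Agent.Lib.MP_2e4b78_lc.Mod.P.TR
import Pool.Agent.Lib.MP_2e4b78_lc.Mod.P.SC
import Pool.Agent.Lib.MP_2e4b78_lc.Mod.P.XI
import Pool.Agent.Lib.MP_2e4b78_lc.Mod.P.QE
import Pool.Agent.Lib.MP_2e4b78_lc.Mod.P.FB
import Pool.Agent.Lib.MP_2e4b78_lc.Mod.P.GS
import Pool.Agent.Lib.MP_2e4b78_lc.Mod.P.PO
import Pool.Agent.Lib.MP_2e4b78_lc.Mod.P.ML
import Pool.Agent.Lib.MP_2e4b78_lc.Mod.P.NA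
import Pool.Agent.Lib.MP_2e4b78_lc.Mod.P.NB
import Pool.Agent.Lib.MP_2e4b78_lc.Mod.P.NG
import Pool.Agent.Lib.MP_2e4b78_lc.Mod.P.FI

set_option autoImplicit false

/-!
# MP_2e4b78_lc : assembly
-/

namespace Pool.Agent.NST

theorem t_IJ : S_IJ := p_IJ 

theorem t_BG : S_BG := p_BG 

theorem t_CL : S_CL := p_CL 

theorem t_ON : S_ON := p_ON 

theorem t_WV : S_WV := p_WV t_IJ t_BG t_ON

theorem t_E1 : S_E1 := p_E1 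

theorem t_LB : S_LB := p_LB 

theorem t_AL : S_AL := p_AL t_LB t_E1

theorem t_GN : S_GN := p_GN t_E1 t_AL

theorem t_GE : S_GE := p_GE t_E1 t_GN

theorem t_SQ : S_SQ := p_SQ t_GE

theorem t_IO : S_IO := p_IO t_BG t_CL t_ON t_WV t_SQ

theorem t_GW : S_GW := p_GW t_E1 t_GN

theorem t_SU : S_SU := p_SU t_IJ t_CL t_ON t_WV t_GW

theorem t_II : S_II := p_II t_IJ t_WV

theorem t_OK : S_OK := p_OK 

theorem t_NI : S_NI := p_NI t_E1 t_OK t_IJ t_BG t_CL t_ON t_WV t_II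

theorem t_EL : S_EL := p_EL 

theorem t_AV : S_AV := p_AV t_BG t_EL

theorem t_HT : S_HT := p_HT t_OK t_IJ t_BG t_CL t_EL t_ON t_WV t_AV

theorem t_RL : S_RL := p_RL t_IJ t_BG t_CL t_EL t_AV

theorem t_MD : S_MD := p_MD 

theorem t_AP : S_AP := p_AP t_MD

theorem t_LD : S_LD := p_LD 

theorem t_CH : S_CH := p_CH t_LB t_E1

theorem t_HL : S_HL := p_HL t_E1 t_LD t_GN t_CH t_OK

theorem t_HU : S_HU := p_HU t_OK t_HL t_AP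

theorem t_LI : S_LI := p_LI 

theorem t_FU : S_FU := p_FU t_OK t_LI

theorem t_EX : S_EX := p_EX t_OK t_AP t_HU t_FU

theorem t_LV : S_LV := p_LV t_OK t_EX

theorem t_TR : S_TR := p_TR t_OK t_CL t_EL t_ON t_WV t_AV t_RL t_LV

theorem t_SC : S_SC := p_SC t_OK t_IJ t_BG t_CL t_EL t_AV

theorem t_XI : S_XI := p_XI t_E1

theorem t_QE : S_QE := p_QE 

theorem t_FB : S_FB := p_FB 

theorem t_GS : S_GS := p_GS 

theorem t_PO : S_PO := p_PO t_E1 t_OK t_IJ t_CL t_EL t_ON t_WV t_AV t_RL t_SC t_XI t_QE t_FB t_GS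

theorem t_ML : S_ML := p_ML t_OK t_HU t_FU t_EX

theorem t_NA : S_NA := p_NA t_EL t_AV

theorem t_NB : S_NB := p_NB t_EL t_AV

theorem t_NG : S_NG := p_NG t_OK t_ML t_IJ t_EL t_ON t_WV t_AV t_NA t_NB

theorem t_FI : S_FI := p_FI t_IJ t_IO t_WV t_SU t_II t_NI t_AV t_HT t_TR t_PO t_NG

end Pool.Agent.NST
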