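import Pool.Agent.Lib.MP_2e4b78_lc.Mod.Defs

set_option autoImplicit false

/-!
# MP_2e4b78_lc : the statements of the pieces

Each piece is a proposition `S_...`. The proofs are in the files `P/...`.
-/

open Cardinal Set Order
open scoped Ordinal

namespace Pool.Agent.NST

open Pool.Agent.MP2e4b78 (W1 W2 Lim IsNormalIdeal)
open Pool.Agent.CR (V Nm nat natN Memf Eqf IsTransModelZFC)
open Pool.Agent.FW (Ev)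

/-! ### the conditions -/

/-- the auxiliary order -/
def S_E1 : Prop := (∀ p, Ee p p) ∧ (∀ p q r, Ee r q → Ee q p → Ee r p) ∧
  (∀ (p : Cp) (r : Cn), r ≤ p.p → ∃ q : Cp, q.p = r ∧ Ee q p) ∧ (∀ r : Cn, ∃ q : Cp, q.p = r) ∧
  ∀ (p : Cn) (α : W2) (S : Set W1), ∃ q ≤ p, α < q.top ∧ p.top < q.top ∧ ∃ ξ < q.top, q.x ξ = S

/-- lower bounds of short chains in the auxiliary order -/
def S_LB : Prop := ∀ (J : Type) [LinearOrder J] [Nonempty J] (f : J → Cp), #J ≤ ℵ_ 1 →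
  (∀ i j, i ≤ j → Ee (f j) (f i)) → ∃ q, (∀ j, Ee q (f j)) ∧ ∀ ξ < q.p.top, ∃ j, ξ < (f j).p.top

/-- the top ordinal can be put into `E` if it is not yet the top of the condition to be extended -/
def S_LD : Prop := ∀ (q0 : Cn) (d : ℕ → W2), StrictMono d → (∀ n, d n < q0.top) →
  (∀ y < q0.top, ∃ n, y < d n) → ∃ q : Cn, (∀ p, q0 ≤ p → p.top < q0.top → q ≤ p) ∧
    q0.top < q.top ∧ q0.top ∈ q.E ∧ q.c q0.top = d ∧ ∀ ξ < q0.top, q.x ξ = q0.x ξ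

/-- few dense sets have a common element in the auxiliary order -/
def S_AL : Prop := ∀ (p : Cp) (A : Type) (E : A → Set Cp), #A ≤ ℵ_ 1 →
  (∀ a q, Ee q p → ∃ r, Ee r q ∧ r ∈ E a) → (∀ a q r, q ∈ E a → Ee r q → r ∈ E a) →
  ∃ q, Ee q p ∧ ∀ a, q ∈ E a

/-- deciding few choices -/
def S_GN : Prop := ∀ (A : Type) (β : Type 1) (R : A → β → Cn → Prop), #A ≤ ℵ_ 1 →
  (∀ a x p q, q ≤ p → R a x p → R a x q) → ∀ p : Cp,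
  (∀ a, ∀ q ≤ p.p, ∃ r ≤ q, ∃ x, R a x r) → ∃ q, Ee q p ∧ ∃ F : A → β, ∀ a, R a (F a) q.p

/-- continuous chains of length `ω₁` -/
def S_CH : Prop := ∀ Φ : Cp → Set Ob → Cp → Set Ob → Prop,
  (∀ p N, N.Countable → ∃ p' N', Ee p' p ∧ N ⊆ N' ∧ N'.Countable ∧ Φ p N p' N') →
  ∀ p0 N0, N0.Countable → ∃ (P : W1 → Cp) (NN : W1 → Set Ob) (q : Cp),
    P ⊥ = p0 ∧ NN ⊥ = N0 ∧ (∀ i, (NN i).Countable) ∧
    (∀ i j, i ≤ j → Ee (P j) (P i) ∧ NN i ⊆ NN j) ∧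
    (∀ i, Φ (P i) (NN i) (P (Order.succ i)) (NN (Order.succ i))) ∧
    (∀ i, Lim i → (∀ ξ < (P i).p.top, ∃ j < i, ξ < (P j).p.top) ∧
      ∀ a ∈ NN i, ∃ j < i, a ∈ NN j) ∧ ∀ i, Ee q (P i)

/-- countable hulls -/
def S_HL : Prop := ∀ Rq : ℕ → List Ob → Cn → Ob → Prop,
  (∀ k l p q b, q ≤ p → Rq k l p b → Rq k l q b) →
  ∀ (ν : Nm Cn) (p : Cn), Norm ν p → ∀ S : Set W1, Ou ν p S → ∀ A₀ : Set Ob, A₀.Countable →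
  ∃ (q : Cn) (N : Set Ob) (δ : W1) (γ : W2), q ≤ p ∧ N.Countable ∧ A₀ ⊆ N ∧ δ ∈ S ∧ Lim δ ∧
    (∀ β, Ob.w1 β ∈ N ↔ β < δ) ∧ Tp q (N2 N) γ ∧
    (∀ ξ ∈ N2 N, δ ∈ q.x ξ → Ou ν q (q.x ξ)) ∧
    ∀ k l, (∀ a ∈ l, a ∈ N) → (∃ b ∈ N, Rq k l q b) ∨ ∀ r ≤ q, ∀ b, ¬ Rq k l r b

/-! ### nodes -/

/-- closed pairs -/
def S_MD : Prop := ∀ (A : Set W2) (β : W1), A.Countable →
  ∃ (δ : W1) (M : Set W2), M.Countable ∧ Clo δ M ∧ β < δ ∧ A ⊆ M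

/-- one more closed pair -/
def S_AP : Prop := ∀ (t : Nd) (y : W2) (β : W1),
  ∃ t' : Nd, t ≤ t' ∧ t'.len = Order.succ t.len ∧ y ∈ t'.mt ∧ β < t'.dt

/-- limits of chains of nodes -/
def S_LI : Prop := ∀ (α δ : W1), Lim α → ∀ (M : Set W2) (s : ℕ → Nd), (∀ n, s n ≤ s (n + 1)) →
  (∀ n, (s n).len < α) → (∀ x < α, ∃ n, x < (s n).len) → (M = ⋃ n, (s n).mt) →
  (∀ n, (s n).dt < δ) → (∀ β < δ, ∃ n, β < (s n).dt) →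
  ∃ t : Nd, t.len = α ∧ (∀ n, s n ≤ t) ∧ t.dt = δ ∧ t.mt = M

/-- simple facts -/
def S_OK : Prop := (∀ ν p q t, q ≤ p → Ok ν p t → Ok ν q t) ∧
  (∀ ν p s t, s ≤ t → Ok ν p t → Ok ν p s) ∧
  (∀ ν p t t', t ≤ t' → t'.len = Order.succ t.len → Ok ν p t → Ok ν p t') ∧
  (∀ ν p, Ok ν p Nd.root) ∧ (∀ ν p q S, q ≤ p → In ν p S → In ν q S) ∧
  (∀ ν p q S, q ≤ p → Ou ν p S → Ou ν q S) ∧ (∀ ν p q, q ≤ p → Norm ν p → Norm ν q) ∧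
  (∀ ν p S, (∀ q ≤ p, ¬ Ou ν q S) → In ν p S) ∧ ∀ ν p, Norm ν p → Ou ν p Set.univ

/-- hulls with nodes -/
def S_HU : Prop := ∀ Rq : ℕ → List Ob → Cn → Ob → Prop,
  (∀ k l p q b, q ≤ p → Rq k l p b → Rq k l q b) →
  ∀ (ν : Nm Cn) (p : Cn), Norm ν p → ∀ S : Set W1, Ou ν p S → ∀ A₀ : Set Ob, A₀.Countable →
  ∃ (q : Cn) (N : Set Ob) (δ : W1) (γ : W2), q ≤ p ∧ A₀ ⊆ N ∧ δ ∈ S ∧ Hu ν q N δ γ ∧
    ∀ k l, (∀ a ∈ l, a ∈ N) → (∃ b ∈ N, Rq k l q b) ∨ ∀ r ≤ q, ∀ b, ¬ Rq k l r b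

/-- fusion -/
def S_FU : Prop := ∀ (ν : Nm Cn) (q : Cn) (N : Set Ob) (δ : W1) (γ : W2), Hu ν q N δ γ →
  ∀ α : W1, Lim α → α ≤ δ →
  (∀ t, Ob.nd t ∈ N → Ok ν q t → ∀ β < α, t.len ≤ β →
    ∃ t', Ob.nd t' ∈ N ∧ Ok ν q t' ∧ t ≤ t' ∧ t'.len = β) →
  ∀ D : ℕ → Set Nd, (∀ n s, Ob.nd s ∈ N → Ok ν q s → s.len < α →
    ∃ s', Ob.nd s' ∈ N ∧ Ok ν q s' ∧ s'.len < α ∧ s ≤ s' ∧ s' ∈ D n) →
  ∀ s0, Ob.nd s0 ∈ N → Ok ν q s0 → s0.len < α →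
  ∃ t, s0 ≤ t ∧ t.len = α ∧ Ok ν q t ∧
    (∀ β < α, ∃ s, Ob.nd s ∈ N ∧ Ok ν q s ∧ s ≤ t ∧ β < s.len) ∧
    ∀ n, ∃ s, Ob.nd s ∈ N ∧ Ok ν q s ∧ s ≤ t ∧ s.len < α ∧ s ∈ D n

/-- every node has extensions of every length -/
def S_EX : Prop := ∀ (ν : Nm Cn) (p : Cn), Norm ν p → ∀ (t : Nd) (β : W1), Ok ν p t →
  t.len ≤ β → ∃ q ≤ p, ∃ t', t ≤ t' ∧ t'.len = β ∧ Ok ν q t'

/-- sets outside of the ideal are positive -/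
def S_ML : Prop := ∀ (ν : Nm Cn) (p : Cn) (S : Set W1) (Fv : Cn → Nd → Nd → Prop)
  (An : Cn → Nm Cn → ℕ → Nd → Prop), Norm ν p → Ou ν p S →
  (∀ p q t s, q ≤ p → Fv p t s → Fv q t s) → (∀ p q σ n t, q ≤ p → An p σ n t → An q σ n t) →
  (∀ q ≤ p, ∀ t, Ok ν q t → t.len ∈ S → t.len ≠ ⊥ → ∃ r ≤ q, ∃ s, s < t ∧ Fv r t s) →
  (∀ q ≤ p, ∀ s, Ok ν q s → ∃ r ≤ q, ∃ σ,
    (∀ r' ≤ r, ∀ n t t', t < t' → Ok ν r' t' → An r' σ n t → ¬ An r' σ n t') ∧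
    ∀ r' ≤ r, ∀ t, Ok ν r' t → t.len ∈ S → Fv r' t s → ∃ r'' ≤ r', ∃ n, An r'' σ n t) → False

/-- the regressive choice exists -/
def S_QE : Prop := ∀ (ν : Nm Cn) (p r : Cn) (ξ : W2) (h : W2 → ℕ) (t : Nd), r ≤ p → ξ < p.top →
  In ν p (p.x ξ) → Ok ν r t → Lim t.len → t.len ∈ p.x ξ → ∃ j < t.len, Qr p ξ h t j

/-- the fibres of the regressive choice are special -/
def S_FB : Prop := ∀ (p : Cn) (ξ : W2) (h : W2 → ℕ), (∀ γ ∈ p.E, ∀ γ' ∈ p.E, γ ≠ γ' →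
    ∀ n ≥ h γ, ∀ m ≥ h γ', p.c γ n ≠ p.c γ' m) →
  ∀ s : Nd, ∃ A : ℕ → Set Nd, (∀ n, ∀ t ∈ A n, ∀ t' ∈ A n, ¬ t < t') ∧
    ∀ t, s ≤ t → (t.len = ⊥ ∨ t.len = Order.succ s.len ∨ Qr p ξ h t s.len) → ∃ n, t ∈ A n

/-- the selection -/
def S_GS : Prop := ∀ (p : Cn) (ξ : W2) (h : W2 → ℕ), ∃ g : Nd → W1, ∀ t : Nd, g t ≤ t.len ∧
  (t.len ≠ ⊥ → g t < t.len) ∧ (Lim t.len → (∃ j < t.len, Qr p ξ h t j) → Qr p ξ h t (g t)) ∧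
  (¬ Lim t.len → t.len ≠ ⊥ → t.len = Order.succ (g t))

/-! ### sets of the model -/

/-- the codes -/
def S_IJ : Prop := (∀ m n : ℕ, nat m = nat n → m = n) ∧
  (∀ (A : V) (O O' : Set (El A)), cs O = cs O' → O = O') ∧
  (∀ (A : V) (O : Set (El A)) (z : V), z ∈ cs O ↔ ∃ h : z ∈ A, ⟨z, h⟩ ∈ O) ∧
  (∀ (A : V) (F : Set (Set (El A))) (O : Set (El A)), cs O ∈ fam F ↔ O ∈ F) ∧
  (∀ (A : V) (F : Set (Set (El A))) (z : V), z ∈ fam F ↔ ∃ O ∈ F, z = cs O) ∧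
  (∀ (A B : V) (R : El A → El B → Prop) (z : V), z ∈ rel R ↔
    ∃ x y, R x y ∧ z = ZFSet.pair x.1 y.1) ∧
  (∀ (A B : V) (R : El A → El B → Prop) (x : El A) (y : El B),
    ZFSet.pair x.1 y.1 ∈ rel R ↔ R x y) ∧
  (∀ (A : V) (F : ℕ → Set (El A)) (z : V), z ∈ sq F ↔
    ∃ (n : ℕ) (x : El A), x ∈ F n ∧ z = ZFSet.pair (nat n) x.1) ∧
  ∀ (A : V) (F : ℕ → Set (El A)) (n : ℕ) (x : El A),
    ZFSet.pair (nat n) x.1 ∈ sq F ↔ x ∈ F n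

/-! ### names -/

/-- values of the names of sets -/
def S_BG : Prop := ∀ (ι : Type) (ob : ι → Ob), Function.Injective ob →
  ∀ (a : List Ob → ι → Nm Cn) (E : List Ob → ι → Set Cn),
  Ev pp (fun M G => ∀ l : List Ob, (∀ x ∈ l, x ∈ M) →
    bag (a l) (E l) ∈ pp.H M ∧ (∀ i, ob i ∈ M → a l i ∈ pp.H M) ∧
    ∀ z, z ∈ pp.vl M G (bag (a l) (E l)) ↔
      ∃ i, ob i ∈ M ∧ (∃ p ∈ G, p ∈ E l i) ∧ z = pp.vl M G (a l i))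

/-- closure of the world -/
def S_CL : Prop := Ev pp (fun M _ => (∀ a b, Ob.pr a b ∈ M ↔ a ∈ M ∧ b ∈ M) ∧
  (∀ f, Ob.sq f ∈ M → ∀ n, f n ∈ M) ∧ (∀ F i, Ob.f1 F ∈ M → Ob.w1 i ∈ M → F i ∈ M) ∧
  (∀ k, Ob.kk k ∈ M) ∧ Ob.no ∈ M ∧ (∀ t, Ob.nd t ∈ M → Ob.w1 t.len ∈ M) ∧
  (∀ t β, Ob.nd t ∈ M → Ob.w1 β ∈ M → Ob.nd (t.res β) ∈ M) ∧ Ob.nd Nd.root ∈ M ∧
  Ob.w1 ⊥ ∈ M ∧ (∀ i j, Ob.w1 i ∈ M → j < i → Ob.w1 j ∈ M) ∧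
  ∀ g t, Ob.gf g ∈ M → Ob.nd t ∈ M → Ob.w1 (g t) ∈ M)

/-- the names of the nodes -/
def S_EL : Prop := Ev pp (fun M G => (∀ x, Ob.nd x ∈ M → elN x ∈ pp.H M) ∧
  ∀ x y, Ob.nd x ∈ M → Ob.nd y ∈ M → pp.vl M G (elN x) = pp.vl M G (elN y) → x = y)

/-- the names of the ordinals -/
def S_ON : Prop := Ev pp (fun M G => (∀ i, Ob.w1 i ∈ M → oN i ∈ pp.H M) ∧
  (∀ i, Ob.w1 i ∈ M → ∀ z, z ∈ pp.vl M G (oN i) ↔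
    ∃ j < i, Ob.w1 j ∈ M ∧ z = pp.vl M G (oN j)) ∧
  (∀ i j, Ob.w1 i ∈ M → Ob.w1 j ∈ M → pp.vl M G (oN i) = pp.vl M G (oN j) → i = j) ∧
  ∀ i j, Ob.w1 i ∈ M → Ob.w1 j ∈ M → (pp.vl M G (oN i) ∈ pp.vl M G (oN j) ↔ i < j))

/-- `ω₁` of the model and its subsets -/
def S_WV : Prop := Ev pp (fun M G => Wv M G ∈ pp.N M G ∧
  (∀ z, z ∈ Wv M G ↔ ∃ i, Ob.w1 i ∈ M ∧ z = pp.vl M G (oN i)) ∧
  (∀ S, Ob.s1 S ∈ M → sN S ∈ pp.H M ∧ pp.vl M G (sN S) = cs (im1 M G S)) ∧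
  (∀ S i, Ob.w1 i ∈ M → ((∃ z ∈ im1 M G S, z.1 = pp.vl M G (oN i)) ↔ i ∈ S)) ∧
  ∀ S S', Ob.s1 S ∈ M → Ob.s1 S' ∈ M → im1 M G S = im1 M G S' → S = S')

/-- sequences of choices are decided -/
def S_GE : Prop := ∀ R : List Ob → ℕ → Ob → Cn → Prop,
  (∀ l n x p q, q ≤ p → R l n x p → R l n x q) →
  Ev pp (fun M G => ∀ l : List Ob, (∀ x ∈ l, x ∈ M) → (∀ n, ∃ x, ∃ p ∈ G, R l n x p) →
    ∃ F : ℕ → Ob, Ob.sq F ∈ M ∧ ∃ p ∈ G, ∀ n, R l n (F n) p)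

/-- families of choices of length `ω₁` are decided -/
def S_GW : Prop := ∀ R : List Ob → W1 → Ob → Cn → Prop,
  (∀ l i x p q, q ≤ p → R l i x p → R l i x q) →
  Ev pp (fun M G => ∀ l : List Ob, (∀ x ∈ l, x ∈ M) →
    (∀ i, Ob.w1 i ∈ M → ∃ x, ∃ p ∈ G, R l i x p) →
    ∃ F : W1 → Ob, Ob.f1 F ∈ M ∧ ∃ p ∈ G, ∀ i, R l i (F i) p)

/-- in the model no sequence enumerates `ω₁` different sets -/
def S_SQ : Prop := ∀ a : List Ob → W1 → Nm Cn,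
  Ev pp (fun M G => ∀ l : List Ob, (∀ x ∈ l, x ∈ M) → ∀ w ∈ pp.N M G,
    (∀ i, Ob.w1 i ∈ M → ∃ n : ℕ, ZFSet.pair (nat n) (pp.vl M G (a l i)) ∈ w) →
    (∀ i j, Ob.w1 i ∈ M → Ob.w1 j ∈ M → ∀ n : ℕ, ZFSet.pair (nat n) (pp.vl M G (a l i)) ∈ w →
      ZFSet.pair (nat n) (pp.vl M G (a l j)) ∈ w → i = j) → False)

/-- it is the first uncountable ordinal of the model -/
def S_IO : Prop := Ev pp (fun M G => IsOmega1 (pp.N M G) (Wv M G))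

/-- the sets of countable ordinals in the model are given by sets of the world -/
def S_SU : Prop := Ev pp (fun M G => ∀ X : Set (El (Wv M G)), cs X ∈ pp.N M G →
  ∃ S, Ob.s1 S ∈ M ∧ X = im1 M G S)

/-- truth for `In` and `Ou` -/
def S_II : Prop := Ev pp (fun M G => ∀ ν ∈ pp.H M, ∀ I : Set (Set (El (Wv M G))),
  pp.vl M G ν = fam I → ∀ S, Ob.s1 S ∈ M →
    (im1 M G S ∈ I ↔ ∃ p ∈ G, In ν p S) ∧ (im1 M G S ∉ I ↔ ∃ p ∈ G, Ou ν p S))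

/-- truth for `Norm` -/
def S_NI : Prop := Ev pp (fun M G => ∀ ν ∈ pp.H M, ∀ I : Set (Set (El (Wv M G))),
  pp.vl M G ν = fam I → NormalIn (pp.N M G) I → ∃ p ∈ G, Norm ν p)

/-- the set of the nodes in the model -/
def S_AV : Prop := Ev pp (fun M G => ∀ ν ∈ pp.H M, Av ν M G ∈ pp.N M G ∧
  (∀ z, z ∈ Av ν M G ↔ ∃ t ∈ TG ν M G, z = pp.vl M G (elN t)) ∧
  ∀ (U : Set Nd) (x : El (Av ν M G)) (t : Nd), t ∈ TG ν M G → x.1 = pp.vl M G (elN t) →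
    (x ∈ im ν M G U ↔ t ∈ U))

/-- relations between nodes given by the world -/
def S_RL : Prop := ∀ E : List Ob → Nd → Nd → Set Cn, Ev pp (fun M G => ∀ ν ∈ pp.H M,
  ∀ l : List Ob, (∀ x ∈ l, x ∈ M) →
    rel (rl ν M G (fun s t => ∃ p ∈ G, p ∈ E l s t)) ∈ pp.N M G)

/-- sequences of sets of nodes given by the world -/
def S_SC : Prop := ∀ E : List Ob → ℕ → Nd → Set Cn, Ev pp (fun M G => ∀ ν ∈ pp.H M,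
  ∀ l : List Ob, (∀ x ∈ l, x ∈ M) →
    sq (fun n => im ν M G {t | ∃ p ∈ G, p ∈ E l n t}) ∈ pp.N M G)

/-- every set of countable ordinals is listed -/
def S_XI : Prop := Ev pp (fun M G => ∀ S, Ob.s1 S ∈ M →
  ∃ p ∈ G, ∃ ξ, Ob.od ξ ∈ M ∧ ξ < p.top ∧ p.x ξ = S)

/-- the levels are nonempty -/
def S_LV : Prop := Ev pp (fun M G => ∀ ν ∈ pp.H M, (∃ p ∈ G, Norm ν p) →
  ∀ i, Ob.w1 i ∈ M → ∃ t ∈ TG ν M G, t.len = i)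

/-- the height function -/
def S_HT : Prop := Ev pp (fun M G => ∀ ν ∈ pp.H M,
  ∃ ht : El (Av ν M G) → El (Wv M G), fn ht ∈ pp.N M G ∧
    ∀ x t, t ∈ TG ν M G → x.1 = pp.vl M G (elN t) → (ht x).1 = pp.vl M G (oN t.len))

/-- the tree in the model -/
def S_TR : Prop := Ev pp (fun M G => ∀ ν ∈ pp.H M, (∃ p ∈ G, Norm ν p) →
  ∀ ht : El (Av ν M G) → El (Wv M G), fn ht ∈ pp.N M G →
    (∀ x t, t ∈ TG ν M G → x.1 = pp.vl M G (elN t) → (ht x).1 = pp.vl M G (oN t.len)) →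
    TreeIn (pp.N M G) (RR ν M G) ht)

/-- members of the ideal are small -/
def S_PO : Prop := Ev pp (fun M G => ∀ ν ∈ pp.H M,
  ∀ ht : El (Av ν M G) → El (Wv M G), fn ht ∈ pp.N M G →
    (∀ x t, t ∈ TG ν M G → x.1 = pp.vl M G (elN t) → (ht x).1 = pp.vl M G (oN t.len)) →
    ∀ S, Ob.s1 S ∈ M → (∃ p ∈ G, In ν p S) →
      NSIn (pp.N M G) (RR ν M G) {t | ht t ∈ im1 M G S})

/-- a regressive function of the model is forced to be regressive -/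
def S_NA : Prop := Ev pp (fun M G => ∀ ν ∈ pp.H M, ∀ φ ∈ pp.H M, ∀ S, Ob.s1 S ∈ M →
  (∀ t ∈ TG ν M G, t.len ∈ S → t.len ≠ ⊥ → ∃ s ∈ TG ν M G, s < t ∧
    ZFSet.pair (pp.vl M G (elN t)) (pp.vl M G (elN s)) ∈ pp.vl M G φ) →
  ∃ p ∈ G, ∀ q ≤ p, ∀ t, Ok ν q t → t.len ∈ S → t.len ≠ ⊥ →
    ∃ r ≤ q, ∃ s, s < t ∧ Memf (FW.opN (elN t) (elN s)) φ r)

/-- special fibres in the model are forced to be special -/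
def S_NB : Prop := Ev pp (fun M G => ∀ ν ∈ pp.H M, ∀ φ ∈ pp.H M, ∀ S, Ob.s1 S ∈ M →
  (∀ s ∈ TG ν M G, ∃ σ ∈ pp.H M,
    (∀ n, ∀ t ∈ TG ν M G, ∀ t' ∈ TG ν M G, t < t' →
      ZFSet.pair (nat n) (pp.vl M G (elN t)) ∈ pp.vl M G σ →
        ZFSet.pair (nat n) (pp.vl M G (elN t')) ∉ pp.vl M G σ) ∧
    ∀ t ∈ TG ν M G, t.len ∈ S →
      ZFSet.pair (pp.vl M G (elN t)) (pp.vl M G (elN s)) ∈ pp.vl M G φ →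
        ∃ n : ℕ, ZFSet.pair (nat n) (pp.vl M G (elN t)) ∈ pp.vl M G σ) →
  ∃ p ∈ G, ∀ q ≤ p, ∀ s, Ok ν q s → ∃ r ≤ q, ∃ σ,
    (∀ r' ≤ r, ∀ (n : ℕ) (t t' : Nd), t < t' → Ok ν r' t' →
      Memf (FW.opN (natN Cn n) (elN t)) σ r' → ¬ Memf (FW.opN (natN Cn n) (elN t')) σ r') ∧
    ∀ r' ≤ r, ∀ t, Ok ν r' t → t.len ∈ S → Memf (FW.opN (elN t) (elN s)) φ r' →
      ∃ r'' ≤ r', ∃ n : ℕ, Memf (FW.opN (natN Cn n) (elN t)) σ r'')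

/-- sets outside of the ideal are positive in the model -/
def S_NG : Prop := Ev pp (fun M G => ∀ ν ∈ pp.H M, (∃ p ∈ G, Norm ν p) →
  ∀ ht : El (Av ν M G) → El (Wv M G),
    (∀ x t, t ∈ TG ν M G → x.1 = pp.vl M G (elN t) → (ht x).1 = pp.vl M G (oN t.len)) →
    ∀ S, Ob.s1 S ∈ M → (∃ p ∈ G, Ou ν p S) →
      ¬ NSIn (pp.N M G) (RR ν M G) {t | ht t ∈ im1 M G S})

/-- the theorem -/
def S_FI : Prop := ∃ N : Set V, N.Countable ∧ IsTransModelZFC N ∧ Q1 N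

end Pool.Agent.NST
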